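import Pool.Agent.TH702.LLG.Even
import Pool.Agent.H238R2.HY.Struct

set_option autoImplicit false

/-!
Linear forests for graphs with ordinary classes `0, …, m - 1` and a special class `m`: an ordinary
vertex has at most four neighbours in every other ordinary class, at most two in its own class and
at most two special neighbours; a special vertex has at most two neighbours in every ordinary class
and at most `2 m` special neighbours.
-/

namespace Pool.Agent.N411.TG

open SimpleGraph H931R3.LA Pool.Agent.TH702.LLG

/-- A graph is a linear forest if every vertex has at most one neighbour of smaller or equal rank and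
at most one of larger rank. -/
theorem isLF_of_rank' {V : Type} (F : SimpleGraph V) (pos : V → ℕ)
    (h1 : ∀ u v w, F.Adj u v → F.Adj u w → pos v ≤ pos u → pos w ≤ pos u → v = w)
    (h2 : ∀ u v w, F.Adj u v → F.Adj u w → pos u < pos v → pos u < pos w → v = w) : IsLF F := by
  classical
  refine ⟨acyclic_of_rank F pos h1, ?_⟩
  intro v
  have h3 : Set.InjOn (fun w => decide (pos w ≤ pos v)) (F.neighborSet v) := by
    intro a ha b hb hab
    simp only [decide_eq_decide] at hab
    by_cases h : pos a ≤ pos v
    · exact h1 v a b ha hb h (hab.1 h)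
    · have h' : ¬ pos b ≤ pos v := fun h'' => h (hab.2 h'')
      exact h2 v a b ha hb (by omega) (by omega)
  rw [← h3.ncard_image]
  refine le_trans (Set.ncard_le_ncard (Set.subset_univ _) Set.finite_univ) ?_
  rw [Set.ncard_univ]
  simp

theorem P_mod (m c i : ℕ) : P m (c + m) i = P m c i := by
  unfold P Pool.Agent.TH525.FRG.res
  rw [Nat.add_mod_right]

theorem cov_special {V : Type} [Finite V] (G : SimpleGraph V) (m : ℕ) (f : V → ℕ) (hm : 1 ≤ m)
    (hf : ∀ v, f v ≤ m)
    (h4 : ∀ u j, f u < m → j < m → j ≠ f u → {v | G.Adj u v ∧ f v = j}.ncard ≤ 4)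
    (h2 : ∀ u, f u < m → {v | G.Adj u v ∧ f v = f u}.ncard ≤ 2)
    (ho2 : ∀ u, f u < m → {v | G.Adj u v ∧ f v = m}.ncard ≤ 2)
    (hs2 : ∀ u j, f u = m → j < m → {v | G.Adj u v ∧ f v = j}.ncard ≤ 2)
    (hs : ∀ u, f u = m → {v | G.Adj u v ∧ f v = m}.ncard ≤ 2 * m) : Cov G (2 * m + 1) := by
  classical
  have := Fintype.ofFinite V
  -- edges between different ordinary classes
  let f' : V → ℕ := fun v => if f v < m then f v else 0
  have hf'lt : ∀ v, f' v < m := by
    intro v
    simp only [f']
    split_ifs <;> omega
  have hf'eq : ∀ v, f v < m → f' v = f v := fun v h => if_pos h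
  let G0 : SimpleGraph V :=
    { Adj := fun u v => G.Adj u v ∧ f u ≠ f v ∧ f u < m ∧ f v < m
      symm := ⟨fun u v h => ⟨h.1.symm, h.2.1.symm, h.2.2.2, h.2.2.1⟩⟩
      loopless := ⟨fun u h => h.2.1 rfl⟩ }
  obtain ⟨B, hB0, hB1, hB2', hB3'⟩ := base G0 m f' hf'lt (fun u v h => by
      rw [hf'eq u h.2.2.1, hf'eq v h.2.2.2]; exact h.2.1) (by
    intro u j
    by_cases hj : f u < m ∧ j < m ∧ j ≠ f u
    · refine (Set.ncard_le_ncard ?_ (Set.toFinite _)).trans (h4 u j hj.1 hj.2.1 hj.2.2)
      rintro v ⟨hv, hv'⟩
      refine ⟨hv.1, ?_⟩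
      rw [← hf'eq v hv.2.2.2]; exact hv'
    · have : {v | G0.Adj u v ∧ f' v = j} = ∅ := by
        ext v
        simp only [Set.mem_ofPred_eq, Set.mem_empty_iff_false, iff_false]
        rintro ⟨h, h'⟩
        rw [hf'eq v h.2.2.2] at h'
        refine hj ⟨h.2.2.1, ?_, ?_⟩
        · rw [← h']; exact h.2.2.2
        · rw [← h']; exact h.2.1.symm
      rw [this, Set.ncard_empty]
      omega)
  have hB2 : ∀ c u v, (B c).Adj u v → P m c (f u) = P m c (f v) + 1 ∨
      P m c (f v) = P m c (f u) + 1 := by
    intro c u v h
    have h' := hB0 c h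
    have := hB2' c u v h
    rwa [hf'eq u h'.2.2.1, hf'eq v h'.2.2.2] at this
  have hB3 : ∀ c u v w, (B c).Adj u v → (B c).Adj u w → P m c (f v) = P m c (f w) → v = w := by
    intro c u v w hv hw h
    refine hB3' c u v w hv hw ?_
    rw [hf'eq v (hB0 c hv).2.2.2, hf'eq w (hB0 c hw).2.2.2]
    exact h
  -- edges between ordinary and special vertices
  let G1 : SimpleGraph V :=
    { Adj := fun u v => G.Adj u v ∧ ((f u = m ∧ f v < m) ∨ (f u < m ∧ f v = m))
      symm := ⟨fun u v h => ⟨h.1.symm, by
        rcases h.2 with h | h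
        · exact Or.inr ⟨h.2, h.1⟩
        · exact Or.inl ⟨h.2, h.1⟩⟩⟩
      loopless := ⟨fun u h => G.loopless.irrefl u h.1⟩ }
  obtain ⟨s, hs1, hs2', hs3⟩ := Pool.Agent.TH525.FRG.exists_slots G1 (m + 1) 2 f
    (fun v => by have := hf v; omega) (fun u v h => by rcases h.2 with h | h <;> omega) (by
    intro u j
    by_cases hu : f u < m
    · by_cases hj : j = m
      · subst hj
        refine (Set.ncard_le_ncard ?_ (Set.toFinite _)).trans (ho2 u hu)
        rintro v ⟨hv, hv'⟩
        exact ⟨hv.1, hv'⟩
      · have : {v | G1.Adj u v ∧ f v = j} = ∅ := by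
          ext v
          simp only [Set.mem_ofPred_eq, Set.mem_empty_iff_false, iff_false]
          rintro ⟨h, h'⟩
          rcases h.2 with h | h <;> omega
        rw [this, Set.ncard_empty]
        omega
    · by_cases hj : j < m
      · refine (Set.ncard_le_ncard ?_ (Set.toFinite _)).trans
          (hs2 u j (by have := hf u; omega) hj)
        rintro v ⟨hv, hv'⟩
        exact ⟨hv.1, hv'⟩
      · have : {v | G1.Adj u v ∧ f v = j} = ∅ := by
          ext v
          simp only [Set.mem_ofPred_eq, Set.mem_empty_iff_false, iff_false]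
          rintro ⟨h, h'⟩
          rcases h.2 with h | h <;> omega
        rw [this, Set.ncard_empty]
        omega)
  let N : ℕ → SimpleGraph V := fun c =>
    { Adj := fun u v => G1.Adj u v ∧ s u v = c / m ∧
        (f u < m → P m c (f u) = m - 1) ∧ (f v < m → P m c (f v) = m - 1)
      symm := ⟨fun u v h => ⟨h.1.symm, by rw [← hs1 u v h.1]; exact h.2.1, h.2.2.2, h.2.2.1⟩⟩
      loopless := ⟨fun u h => G1.loopless.irrefl u h.1⟩ }
  -- edges between special vertices
  let G2 : SimpleGraph V :=
    { Adj := fun u v => G.Adj u v ∧ f u = m ∧ f v = m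
      symm := ⟨fun u v h => ⟨h.1.symm, h.2.2, h.2.1⟩⟩
      loopless := ⟨fun u h => G.loopless.irrefl u h.1⟩ }
  obtain ⟨κ, hκ1, hκ2, hκ3⟩ := Pool.Agent.H238R2.HY.vizing G2 (2 * m) (by
    intro u
    rw [← SimpleGraph.card_neighborFinset_eq_degree]
    by_cases hu : f u = m
    · refine le_trans (le_of_eq ?_) (hs u hu)
      rw [Set.ncard_eq_toFinset_card']
      congr 1
      ext v
      simp only [mem_neighborFinset, Set.mem_toFinset, Set.mem_ofPred_eq]
      exact ⟨fun h => ⟨h.1, h.2.2⟩, fun h => ⟨h.1, hu, h.2⟩⟩
    · have : G2.neighborFinset u = ∅ := by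
        ext v
        simp only [mem_neighborFinset, Finset.notMem_empty, iff_false]
        intro h
        exact hu h.2.1
      rw [this, Finset.card_empty]
      omega)
  let M : ℕ → SimpleGraph V := fun c =>
    { Adj := fun u v => G2.Adj u v ∧ κ u v = c
      symm := ⟨fun u v h => ⟨h.1.symm, by rw [← hκ1 u v]; exact h.2⟩⟩
      loopless := ⟨fun u h => G2.loopless.irrefl u h.1⟩ }
  have hMM : ∀ c u v w, (M c).Adj u v → (M c).Adj u w → v = w := by
    intro c u v w hv hw
    by_contra hne
    exact hκ3 u v w hv.1 hw.1 hne (by rw [hv.2, hw.2])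
  have hNN : ∀ c u v w, (N c).Adj u v → (N c).Adj u w → v = w := by
    intro c u v w hv hw
    refine hs3 u v w hv.1 hw.1 ?_ (by rw [hv.2.1, hw.2.1])
    have a1 := hv.1.2
    have a2 := hw.1.2
    rcases a1 with a1 | a1
    · rcases a2 with a2 | a2
      · exact P_inj a1.2 a2.2 (by rw [hv.2.2.2 a1.2, hw.2.2.2 a2.2])
      · omega
    · rcases a2 with a2 | a2
      · omega
      · omega
  let F : ℕ → SimpleGraph V := fun c => B c ⊔ N c ⊔ M c
  let rk : ℕ → V → ℕ := fun c u => if f u < m then m - P m c (f u) else 0
  have hrko : ∀ c u, f u < m → rk c u = m - P m c (f u) := fun c u h => if_pos h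
  have hrks : ∀ c u, f u = m → rk c u = 0 := fun c u h => if_neg (by omega)
  have hlo : ∀ c u v w, (F c).Adj u v → (F c).Adj u w → rk c v ≤ rk c u → rk c w ≤ rk c u →
      v = w := by
    intro c u v w hv hw hv' hw'
    simp only [F, sup_adj] at hv hw
    rcases Nat.lt_or_ge (f u) m with hu | hu
    · have hPu := P_lt (c := c) hu
      rw [hrko c u hu] at hv' hw'
      rcases hv with (hv | hv) | hv
      · have b1 := (hB0 c hv).2.2.2
        have b2 := hB2 c u v hv
        have b3 := P_lt (c := c) b1
        rw [hrko c v b1] at hv'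
        rcases hw with (hw | hw) | hw
        · have b4 := (hB0 c hw).2.2.2
          have b5 := hB2 c u w hw
          have b6 := P_lt (c := c) b4
          rw [hrko c w b4] at hw'
          exact hB3 c u v w hv hw (by omega)
        · have b4 := hw.2.2.1 hu
          omega
        · have := hw.1.2.1
          omega
      · rcases hw with (hw | hw) | hw
        · have b1 := (hB0 c hw).2.2.2
          have b2 := hB2 c u w hw
          have b3 := P_lt (c := c) b1
          rw [hrko c w b1] at hw'
          have b4 := hv.2.2.1 hu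
          omega
        · exact hNN c u v w hv hw
        · have := hw.1.2.1
          omega
      · have := hv.1.2.1
        omega
    · have hu' : f u = m := le_antisymm (hf u) hu
      rw [hrks c u hu'] at hv' hw'
      have key : ∀ x, ((B c).Adj u x ∨ (N c).Adj u x) ∨ (M c).Adj u x → rk c x ≤ 0 →
          (M c).Adj u x := by
        intro x hx hx'
        rcases hx with (hx | hx) | hx
        · have := (hB0 c hx).2.2.1
          omega
        · have b1 := hx.1.2
          have b2 : f x < m := by omega
          have b3 := P_lt (c := c) b2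
          rw [hrko c x b2] at hx'
          omega
        · exact hx
      exact hMM c u v w (key v hv hv') (key w hw hw')
  have hhi : ∀ c u v w, (F c).Adj u v → (F c).Adj u w → rk c u < rk c v → rk c u < rk c w →
      v = w := by
    intro c u v w hv hw hv' hw'
    simp only [F, sup_adj] at hv hw
    rcases Nat.lt_or_ge (f u) m with hu | hu
    · have hPu := P_lt (c := c) hu
      rw [hrko c u hu] at hv' hw'
      have key : ∀ x, ((B c).Adj u x ∨ (N c).Adj u x) ∨ (M c).Adj u x →
          m - P m c (f u) < rk c x → (B c).Adj u x := by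
        intro x hx hx'
        rcases hx with (hx | hx) | hx
        · exact hx
        · have b1 := hx.1.2
          have b2 : f x = m := by omega
          rw [hrks c x b2] at hx'
          omega
        · have := hx.1.2.1
          omega
      have c1 := key v hv hv'
      have c2 := key w hw hw'
      have b1 := (hB0 c c1).2.2.2
      have b2 := hB2 c u v c1
      have b3 := P_lt (c := c) b1
      have b4 := (hB0 c c2).2.2.2
      have b5 := hB2 c u w c2
      have b6 := P_lt (c := c) b4
      rw [hrko c v b1] at hv'
      rw [hrko c w b4] at hw'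
      exact hB3 c u v w c1 c2 (by omega)
    · have hu' : f u = m := le_antisymm (hf u) hu
      rw [hrks c u hu'] at hv' hw'
      have key : ∀ x, ((B c).Adj u x ∨ (N c).Adj u x) ∨ (M c).Adj u x → 0 < rk c x →
          (N c).Adj u x := by
        intro x hx hx'
        rcases hx with (hx | hx) | hx
        · have := (hB0 c hx).2.2.1
          omega
        · exact hx
        · have b1 := hx.1.2.2
          rw [hrks c x b1] at hx'
          omega
      exact hNN c u v w (key v hv hv') (key w hw hw')
  have hF : ∀ c, IsLF (F c) := fun c => isLF_of_rank' (F c) (rk c) (hlo c) (hhi c)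
  -- the start class
  have hstart : ∀ c, c < m → ∀ u, f u = c → ((F c).neighborSet u).ncard ≤ 1 := by
    intro c hc u hu
    have hu' : f u < m := by omega
    have hP : P m c (f u) = 0 := P_start hu' (by rw [Nat.mod_eq_of_lt hc, hu])
    apply ncard_le_one_of
    intro a ha b hb
    have hrk : ∀ x, rk c x ≤ rk c u := by
      intro x
      rw [hrko c u hu', hP]
      simp only [rk]
      split_ifs <;> omega
    exact hlo c u a b ha hb (hrk a) (hrk b)
  -- edges inside the ordinary classes
  let D : SimpleGraph V :=
    { Adj := fun u v => G.Adj u v ∧ f u = f v ∧ f u < m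
      symm := ⟨fun u v h => ⟨h.1.symm, h.2.1.symm, by rw [← h.2.1]; exact h.2.2⟩⟩
      loopless := ⟨fun u h => G.loopless.irrefl u h.1⟩ }
  have hD2 : ∀ u, (D.neighborSet u).ncard ≤ 2 := by
    intro u
    by_cases hu : f u < m
    · refine (Set.ncard_le_ncard ?_ (Set.toFinite _)).trans (h2 u hu)
      intro v hv
      exact ⟨hv.1, hv.2.1.symm⟩
    · have : D.neighborSet u = ∅ := by
        ext v
        simp only [mem_neighborSet, Set.mem_empty_iff_false, iff_false]
        intro h
        exact hu h.2.2
      rw [this, Set.ncard_empty]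
      omega
  have htwo : ∀ u a b c, D.Adj u a → D.Adj u b → a ≠ b → D.Adj u c → c = a ∨ c = b := by
    intro u a b c ha hb hab hc
    by_contra hcon
    push Not at hcon
    have h3 : ({a, b, c} : Set V) ⊆ D.neighborSet u := by
      intro x hx
      simp only [Set.mem_insert_iff, Set.mem_singleton_iff] at hx
      rcases hx with rfl | rfl | rfl
      · exact ha
      · exact hb
      · exact hc
    have h5 := Set.ncard_le_ncard h3 (Set.toFinite _)
    have h6 : ({a, b, c} : Set V).ncard = 3 := by
      rw [Set.ncard_eq_three]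
      exact ⟨a, b, c, hab, hcon.1.symm, hcon.2.symm, rfl⟩
    have := hD2 u
    omega
  let D' : ℕ → SimpleGraph V := fun c =>
    { Adj := fun u v => D.Adj u v ∧ f u = c
      symm := ⟨fun u v h => ⟨h.1.symm, by rw [← h.1.2.1]; exact h.2⟩⟩
      loopless := ⟨fun u h => D.loopless.irrefl u h.1⟩ }
  have hT := fun c => exists_ext (F c) (D' c) (hF c)
  choose T hTD hTF hText using hT
  let R : SimpleGraph V :=
    { Adj := fun u v => D.Adj u v ∧ ¬ (T (f u)).Adj u v
      symm := ⟨fun u v h => ⟨h.1.symm, fun h' => h.2 (by rw [h.1.2.1]; exact h'.symm)⟩⟩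
      loopless := ⟨fun u h => D.loopless.irrefl u h.1⟩ }
  -- a vertex with two neighbours in `R` has no neighbour in `T`
  have hRT : ∀ u x y, R.Adj u x → R.Adj u y → x ≠ y → ∀ c z, ¬ (T c).Adj u z := by
    intro u x y hx hy hxy c z hz
    have h1 := hTD c hz
    have hc : f u = c := h1.2
    subst hc
    rcases htwo u x y z hx.1 hy.1 hxy h1.1 with rfl | rfl
    · exact hx.2 hz
    · exact hy.2 hz
  have hdegT : ∀ u x y, R.Adj u x → R.Adj u y → x ≠ y →
      ((F (f u) ⊔ T (f u)).neighborSet u).ncard ≤ 1 := by
    intro u x y hx hy hxy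
    have h5 : (F (f u) ⊔ T (f u)).neighborSet u = (F (f u)).neighborSet u := by
      ext z
      rw [mem_neighborSet, mem_neighborSet, sup_adj]
      constructor
      · rintro (h | h)
        · exact h
        · exact absurd h (hRT u x y hx hy hxy (f u) z)
      · intro h; exact Or.inl h
    rw [h5]
    exact hstart (f u) hx.1.2.2 u rfl
  have hRord : ∀ u v, R.Adj u v → f u < m := fun u v h => h.1.2.2
  let X : SimpleGraph V := R ⊔ M (2 * m)
  have hX : IsLF X := by
    refine ⟨?_, ?_⟩
    · intro v c hc
      have key : ∀ u ∈ c.support, ∃ x y, x ≠ y ∧ R.Adj u x ∧ R.Adj u y ∧ x ∈ c.support ∧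
          y ∈ c.support := by
        intro u hu
        obtain ⟨x, y, hxy, hx, hy, hx', hy'⟩ := cycle_nbrs X c hc u hu
        simp only [X, sup_adj] at hx hy
        refine ⟨x, y, hxy, ?_, ?_, hx', hy'⟩
        · rcases hx with hx | hx
          · exact hx
          · rcases hy with hy | hy
            · have b1 := hRord u y hy
              have b2 := hx.1.2.1
              omega
            · exact absurd (hMM _ u x y hx hy) hxy
        · rcases hy with hy | hy
          · exact hy
          · rcases hx with hx | hx
            · have b1 := hRord u x hx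
              have b2 := hy.1.2.1
              omega
            · exact absurd (hMM _ u x y hx hy) hxy
      obtain ⟨x, y, hxy, hx, hy, hx', hy'⟩ := key v c.start_mem_support
      obtain ⟨x1, x2, hx12, hx1, hx2, -, -⟩ := key x hx'
      obtain ⟨y1, y2, hy12, hy1, hy2, -, -⟩ := key y hy'
      have d0 := hdegT v x y hx hy hxy
      have d1 := hdegT x x1 x2 hx1 hx2 hx12
      have d2 := hdegT y y1 y2 hy1 hy2 hy12
      have e1 : f x = f v := hx.1.2.1.symm
      have e2 : f y = f v := hy.1.2.1.symm
      rw [e1] at d1
      rw [e2] at d2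
      rcases hText (f v) v x y hxy ⟨hx.1, rfl⟩ ⟨hy.1, rfl⟩ d0 d1 d2 with h | h
      · exact hx.2 h
      · exact hy.2 h
    · intro u
      by_cases hu : f u < m
      · refine (Set.ncard_le_ncard ?_ (Set.toFinite _)).trans (hD2 u)
        intro v hv
        rw [mem_neighborSet] at hv ⊢
        simp only [X, sup_adj] at hv
        rcases hv with hv | hv
        · exact hv.1
        · have := hv.1.2.1
          omega
      · refine le_trans ?_ (show 1 ≤ 2 by omega)
        apply ncard_le_one_of
        intro a ha b hb
        rw [mem_neighborSet] at ha hb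
        simp only [X, sup_adj] at ha hb
        rcases ha with ha | ha
        · exact absurd (hRord u a ha) hu
        · rcases hb with hb | hb
          · exact absurd (hRord u b hb) hu
          · exact hMM _ u a b ha hb
  -- the forests
  let C : Fin (2 * m + 1) → SimpleGraph V := fun c =>
    if (c : ℕ) < m then F c ⊔ T c else if (c : ℕ) < 2 * m then F c else X
  have hFG : ∀ c, F c ≤ G := by
    intro c u v h
    simp only [F, sup_adj] at h
    rcases h with (h | h) | h
    · exact (hB0 c h).1
    · exact h.1.1
    · exact h.1.1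
  have hFC : ∀ c (hc : c < 2 * m) u v, (F c).Adj u v → (C ⟨c, by omega⟩).Adj u v := by
    intro c hc u v h
    by_cases h1 : c < m
    · simp only [C, if_pos h1]
      rw [sup_adj]
      exact Or.inl h
    · simp only [C, if_neg h1, if_pos hc]
      exact h
  refine ⟨C, ?_, ?_⟩
  · intro c
    by_cases hc : (c : ℕ) < m
    · simp only [C, if_pos hc]
      exact hTF c
    · by_cases hc' : (c : ℕ) < 2 * m
      · simp only [C, if_neg hc, if_pos hc']
        exact hF c
      · simp only [C, if_neg hc, if_neg hc']
        exact hX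
  · ext u v
    rw [iSup_adj]
    constructor
    · rintro ⟨c, hc⟩
      by_cases hcm : (c : ℕ) < m
      · simp only [C, if_pos hcm] at hc
        rw [sup_adj] at hc
        rcases hc with hc | hc
        · exact hFG _ hc
        · exact (hTD c hc).1.1
      · by_cases hc' : (c : ℕ) < 2 * m
        · simp only [C, if_neg hcm, if_pos hc'] at hc
          exact hFG _ hc
        · simp only [C, if_neg hcm, if_neg hc', X] at hc
          rw [sup_adj] at hc
          rcases hc with hc | hc
          · exact hc.1.1
          · exact hc.1.1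
    · -- covering
      have hmix : ∀ u v, G.Adj u v → f u < m → f v = m → ∃ c, ∃ hc : c < 2 * m,
          (F c).Adj u v := by
        intro u v huv hu hv
        have hG1 : G1.Adj u v := ⟨huv, Or.inr ⟨hu, hv⟩⟩
        obtain ⟨c0, hc0, hP⟩ := P_final hu
        have hsl := hs2' u v hG1
        rcases Nat.eq_zero_or_pos (s u v) with h0 | h0
        · refine ⟨c0, by omega, ?_⟩
          simp only [F, sup_adj]
          refine Or.inl (Or.inr ⟨hG1, ?_, fun _ => hP, fun h => by omega⟩)
          rw [h0, Nat.div_eq_of_lt hc0]
        · refine ⟨c0 + m, by omega, ?_⟩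
          simp only [F, sup_adj]
          refine Or.inl (Or.inr ⟨hG1, ?_, fun _ => by rw [P_mod]; exact hP, fun h => by omega⟩)
          rw [Nat.add_div_right _ (by omega), Nat.div_eq_of_lt hc0]
          omega
      intro huv
      have hu0 := hf u
      have hv0 := hf v
      rcases Nat.lt_or_ge (f u) m with hu | hu
      · rcases Nat.lt_or_ge (f v) m with hv | hv
        · by_cases hfuv : f u = f v
          · by_cases hT' : (T (f u)).Adj u v
            · refine ⟨⟨f u, by omega⟩, ?_⟩
              simp only [C, if_pos hu]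
              rw [sup_adj]
              exact Or.inr hT'
            · refine ⟨⟨2 * m, by omega⟩, ?_⟩
              have h1 : ¬ 2 * m < m := by omega
              have h2 : ¬ 2 * m < 2 * m := by omega
              simp only [C, if_neg h1, if_neg h2, X]
              rw [sup_adj]
              exact Or.inl ⟨⟨huv, hfuv, hu⟩, hT'⟩
          · obtain ⟨c, hc, hcB⟩ := hB1 u v ⟨huv, hfuv, hu, hv⟩
            refine ⟨⟨c, by omega⟩, hFC c hc u v ?_⟩
            simp only [F, sup_adj]
            exact Or.inl (Or.inl hcB)
        · obtain ⟨c, hc, h⟩ := hmix u v huv hu (le_antisymm hv0 hv)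
          exact ⟨⟨c, by omega⟩, hFC c hc u v h⟩
      · rcases Nat.lt_or_ge (f v) m with hv | hv
        · obtain ⟨c, hc, h⟩ := hmix v u huv.symm hv (le_antisymm hu0 hu)
          exact ⟨⟨c, by omega⟩, hFC c hc u v h.symm⟩
        · have hG2 : G2.Adj u v := ⟨huv, le_antisymm hu0 hu, le_antisymm hv0 hv⟩
          have hk := hκ2 u v hG2
          rcases Nat.lt_or_ge (κ u v) (2 * m) with h | h
          · refine ⟨⟨κ u v, by omega⟩, hFC _ h u v ?_⟩
            simp only [F, sup_adj]
            exact Or.inr ⟨hG2, rfl⟩
          · refine ⟨⟨2 * m, by omega⟩, ?_⟩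
            have h1 : ¬ 2 * m < m := by omega
            have h2 : ¬ 2 * m < 2 * m := by omega
            simp only [C, if_neg h1, if_neg h2, X]
            rw [sup_adj]
            exact Or.inr ⟨hG2, by omega⟩

end Pool.Agent.N411.TG
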